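import Pool.Agent.H104R3.EG.Stmts2

set_option autoImplicit false

/-! Task G11 (TaskGens) of the project H104-EG (helper138). -/

namespace Pool.Agent.H104R3.EG

theorem real_mono_h138 {G : Type} [Group G] {m n : ℕ} {P Q : (G → G) → Prop} (hmn : m ≤ n)
    (h : ∀ α, P α → Q α) (hR : Real G m P) : Real G n Q := by
  obtain ⟨S, h1, h2⟩ := hR
  exact ⟨S, h1.trans hmn, fun α hα => h α (h2 α hα)⟩

theorem taskGens : TaskGens := by
  intro hC hG G _ _ s
  induction s with
  | zero =>
    intro x
    exact real_mono_h138 (by omega) (fun α _ i => i.elim0) (hG G 1)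
  | succ s ih =>
    intro x
    refine real_mono_h138 ?_ ?_ (hC G _ _ _ _ (ih (fun i => x i.castSucc)) (hG G (x (Fin.last s))))
    · apply le_of_eq; ring
    · rintro α ⟨h1, h2⟩ i
      refine Fin.lastCases ?_ ?_ i
      · exact h2
      · intro j; exact h1 j

end Pool.Agent.H104R3.EG
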